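import Pool.Agent.MP_6a4325_al.H84.Spec3

/-! Linear independence over an intersection of fields; infinitely divisible rational functions. -/

set_option autoImplicit false

namespace Pool.Agent.MP_6a4325_al.H73

open Pool.Agent.MP_6a4325_al.H62 Pool.Agent.MP_6a4325_al.H84 MvPolynomial

theorem desc : SDesc := by
  classical
  intro Φ _ F hF ι _ f h
  suffices H : ∀ s : Finset ι, ∃ a, ∀ c : ι → Φ, (∀ i, c i ∈ F a) → (∀ i, i ∉ s → c i = 0) →
      ∑ i, c i * f i = 0 → c = 0 by
    obtain ⟨a, ha⟩ := H Finset.univ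
    exact ⟨a, fun c h1 h2 => ha c h1 (fun i hi => absurd (Finset.mem_univ i) hi) h2⟩
  intro s
  induction s using Finset.induction_on with
  | empty => exact ⟨0, fun c _ h2 _ => funext fun i => h2 i (Finset.notMem_empty i)⟩
  | insert j s _ ih =>
    obtain ⟨a₀, ha⟩ := ih
    have ha' : ∀ c : ι → Φ, (∀ i, c i ∈ F a₀) → (∀ i, i ∉ insert j s → c i = 0) → c j = 0 →
        ∑ i, c i * f i = 0 → c = 0 := fun c h1 h2 h3 => ha c h1 fun i hi => by
      by_cases e : i = j
      · exact e ▸ h3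
      · exact h2 i (by simp [e, hi])
    by_contra hc
    push Not at hc
    have k : ∀ a, ∃ c : ι → Φ, (∀ i, c i ∈ F a ∧ c i ∈ F a₀) ∧ (∀ i, i ∉ insert j s → c i = 0) ∧
        ∑ i, c i * f i = 0 ∧ c j = 1 := fun a => by
      obtain ⟨c, h1, h2, h3, h4⟩ := hc (max a a₀)
      have h5 : c j ≠ 0 := fun e => h4 (ha' c (fun i => hF (le_max_right _ _) (h1 i)) h2 e h3)
      have h6 : ∀ i, (c j)⁻¹ * c i ∈ F (max a a₀) := fun i => mul_mem (inv_mem (h1 j)) (h1 i)
      refine ⟨fun i => (c j)⁻¹ * c i, fun i => ⟨hF (le_max_left _ _) (h6 i),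
        hF (le_max_right _ _) (h6 i)⟩, fun i hi => by simp [h2 i hi], ?_, inv_mul_cancel₀ h5⟩
      simp only [mul_assoc, ← Finset.mul_sum, h3, mul_zero]
    choose c h1 h2 h3 h4 using k
    have e : ∀ a, c a = c 0 := fun a => sub_eq_zero.1 (ha' (c a - c 0)
      (fun i => sub_mem (h1 a i).2 (h1 0 i).2) (fun i hi => by simp [h2 _ i hi]) (by simp [h4])
      (by simp only [Pi.sub_apply, sub_mul, Finset.sum_sub_distrib, h3, sub_zero]))
    have := congrFun (h (c 0) (fun i a => e a ▸ (h1 a i).1) (h3 0)) j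
    rw [h4] at this
    exact one_ne_zero this

theorem deg_eq {p : ℕ} (hp : p.Prime) {K : Type} [Field K] {s : ℕ} (m : MonomialOrder (Fin s))
    {u w : MvPolynomial (Fin s) K} (hu : u ≠ 0) (hw : w ≠ 0)
    (h : ∀ a : ℕ, ∃ y : FractionRing (MvPolynomial (Fin s) K),
      y ^ p ^ a = algebraMap _ _ u / algebraMap _ _ w) : m.degree u = m.degree w := by
  have inj := IsFractionRing.injective (MvPolynomial (Fin s) K)
    (FractionRing (MvPolynomial (Fin s) K))
  ext i
  obtain ⟨y, hy⟩ := h (m.degree u i + m.degree w i)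
  obtain ⟨u', w', hw', rfl⟩ := IsFractionRing.div_surjective (A := MvPolynomial (Fin s) K) y
  replace hw' := nonZeroDivisors.ne_zero hw'
  have hq := Nat.lt_pow_self (n := m.degree u i + m.degree w i) hp.one_lt
  generalize p ^ (m.degree u i + m.degree w i) = q at hy hq
  rw [div_pow, div_eq_div_iff (pow_ne_zero _ ((map_ne_zero_iff _ inj).2 hw'))
    ((map_ne_zero_iff _ inj).2 hw), ← map_pow, ← map_pow, ← map_mul, ← map_mul] at hy
  replace hy := inj hy
  have hu' : u' ^ q ≠ 0 := fun e =>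
    mul_ne_zero hu (pow_ne_zero q hw') (by rw [← hy, e, zero_mul])
  have e := DFunLike.congr_fun (congrArg m.degree hy) i
  rw [m.degree_mul hu' hw, m.degree_mul hu (pow_ne_zero q hw'), m.degree_pow, m.degree_pow] at e
  simp only [Finsupp.add_apply, Finsupp.smul_apply, smul_eq_mul] at e
  have e' := congrArg (· % q) e
  simp only [Nat.mul_add_mod, Nat.add_mul_mod_self_left] at e'
  rw [Nat.mod_eq_of_lt (by omega), Nat.mod_eq_of_lt (by omega)] at e'
  exact e'.symm

theorem perf0 : SPerf0 := by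
  intro p hp K _ _ _ s z h
  have inj := IsFractionRing.injective (MvPolynomial (Fin s) K)
    (FractionRing (MvPolynomial (Fin s) K))
  have : CharP (FractionRing (MvPolynomial (Fin s) K)) p :=
    charP_of_injective_algebraMap (algebraMap K _).injective p
  obtain ⟨u, w, hw, rfl⟩ := IsFractionRing.div_surjective (A := MvPolynomial (Fin s) K) z
  replace hw := nonZeroDivisors.ne_zero hw
  by_cases hu : u = 0
  · exact ⟨0, by simp [hu]⟩
  let m : MonomialOrder (Fin s) := MonomialOrder.lex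
  have d := deg_eq hp.out m hu hw h
  obtain ⟨c, hc⟩ : ∃ c, c * coeff (m.degree w) w = coeff (m.degree w) u :=
    ⟨_, div_mul_cancel₀ _ (m.coeff_degree_ne_zero_iff.2 hw)⟩
  have e : algebraMap _ (FractionRing (MvPolynomial (Fin s) K)) (u - C c * w) / algebraMap _ _ w =
      algebraMap _ _ u / algebraMap _ _ w - algebraMap K _ c := by
    rw [map_sub, map_mul, sub_div, mul_div_cancel_right₀ _ ((map_ne_zero_iff _ inj).2 hw),
      IsScalarTower.algebraMap_apply K (MvPolynomial (Fin s) K), algebraMap_eq]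
  refine ⟨c, ?_⟩
  by_contra hz
  have h1 : u - C c * w ≠ 0 := fun h0 => by
    rw [h0, map_zero, zero_div] at e
    exact hz (sub_eq_zero.1 e.symm).symm
  have d1 := deg_eq hp.out m h1 hw fun a => by
    obtain ⟨y, hy⟩ := h a
    obtain ⟨c', hc'⟩ := IsAlgClosed.exists_pow_nat_eq c (pow_pos hp.out.pos a)
    exact ⟨y - algebraMap K _ c', by rw [sub_pow_char_pow, hy, e, ← map_pow, hc']⟩
  refine m.coeff_degree_ne_zero_iff.2 h1 ?_
  rw [d1, coeff_sub, coeff_C_mul, hc, sub_self]

theorem descRow : SDesc ∧ SPerf0 := ⟨desc, perf0⟩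

end Pool.Agent.MP_6a4325_al.H73
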